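import Pool.Agent.H82.BO.Targets

/-!
# MP_c62aed_lc, row DEG of bopt_modules: good formulas have no short refutations
-/

set_option autoImplicit false

namespace Pool.Agent.H49.BO

open Finset Pool.Agent.H82.BO
open Pool.Agent.H15.FLC (Half Violates InsC CovC KerC ErrC BRC ERC KRC BadC)
open Pool.Agent.H15.FLD (H0 tau0 Par0 T_EB0 T_HX0 T_NM0)

/-- few half clauses are inside a small set -/
private theorem deg_ins {n k m : ℕ} {H : Fin m → Half n k} {w s₀ : ℕ} (h : H0 H w s₀)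
    (p : Finset (Fin n) × (Fin n → Bool)) (hp : p.1.card < w) :
    Nat.card {c // InsC H p c} ≤ s₀ := h p.1 (by omega) p.2

theorem pf_DEG (hEB0 : T_EB0) (hKRCX : Pool.Agent.H15.FLC.T_KRCX)
    (hCAPC : Pool.Agent.H15.FLC.T_CAPC) (hLFG : T_LFG) (hPRG : T_PRG) : T_DEG := by
  classical
  intro n k l M μ γ t w d s₀ P F h1 h2 Y s f g hR hs
  set r : ℕ := t + t * s₀ with hrdef
  set H : Fin M → Half n k := F.1 with hH
  have hcardN : Fintype.card (Fin n → Bool) = 2 ^ n := by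
    rw [Fintype.card_fun, Fintype.card_bool, Fintype.card_fin]
  have hs0 : (0 : ℝ) ≤ s := Nat.cast_nonneg _
  have hY0 : (0 : ℝ) ≤ Y.card := Nat.cast_nonneg _
  have hYn : (Y.card : ℝ) ≤ 2 ^ n := by
    have h3 := card_le_univ Y
    rw [hcardN] at h3
    exact_mod_cast h3
  -- the bad assignments
  have hbad : ∀ i, (univ.filter fun y : Fin n → Bool =>
      BadC H s₀ (KRC H r w f i) (RG F.2 y)).card ≤ s₀ ^ (s₀ + 1) * 2 ^ (n - w) := by
    intro i
    have := hLFG H (fun y => RG F.2 y) w s₀ s₀ (2 ^ (n - w)) (fun p hp => deg_ins h1 p hp)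
      (fun T hT => h2 T hT) (KRC H r w f i) (hKRCX H r w f i).1
      (hKRCX H r w f i).2
    rw [Nat.card_eq_fintype_card, Fintype.card_subtype] at this
    exact this
  obtain ⟨y, hyY, hy⟩ : ∃ y ∈ Y, ∀ i, i < s →
      ¬ BadC H s₀ (KRC H r w f i) (RG F.2 y) := by
    by_contra hcon
    push Not at hcon
    have hsub : Y ⊆ (range s).biUnion fun i =>
        univ.filter fun y : Fin n → Bool => BadC H s₀ (KRC H r w f i) (RG F.2 y) := by
      intro y hy
      obtain ⟨i, hi, hb⟩ := hcon y hy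
      rw [mem_biUnion]
      exact ⟨i, mem_range.mpr hi, mem_filter.mpr ⟨mem_univ _, hb⟩⟩
    have hc1 : Y.card ≤ s * (s₀ ^ (s₀ + 1) * 2 ^ (n - w)) := by
      have h3 := card_le_card hsub
      refine h3.trans (card_biUnion_le.trans ?_)
      refine (sum_le_sum fun i _ => hbad i).trans ?_
      rw [sum_const, card_range, smul_eq_mul]
    have hc2 : (Y.card : ℝ) ≤ s * ((s₀ ^ (s₀ + 1) * 2 ^ (n - w) : ℕ) : ℝ) := by
      have : (Y.card : ℝ) ≤ ((s * (s₀ ^ (s₀ + 1) * 2 ^ (n - w)) : ℕ) : ℝ) := by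
        exact_mod_cast hc1
      rw [Nat.cast_mul s] at this
      exact this
    have hc3 := P.bad4
    have hc4 : 4 * (Y.card : ℝ) ≤ s * 2 ^ ((1 - γ) * n) := by
      calc 4 * (Y.card : ℝ) ≤ 4 * (s * ((s₀ ^ (s₀ + 1) * 2 ^ (n - w) : ℕ) : ℝ)) := by linarith
        _ = s * (4 * ((s₀ ^ (s₀ + 1) * 2 ^ (n - w) : ℕ) : ℝ)) := by ring
        _ ≤ s * 2 ^ ((1 - γ) * n) := mul_le_mul_of_nonneg_left hc3 hs0
    linarith
  -- the last line
  have hRy := hR.2 y hyY
  have hs1 : s - 1 < s := by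
    have := hR.1
    omega
  have hs2 : s - 1 + 1 = s := by
    have := hR.1
    omega
  obtain ⟨T, -, hTc, hTcov⟩ := hPRG F r w s₀ t s f g le_rfl y hRy hy (s - 1) hs1
  have hB := hCAPC F.1 s₀ T _ hTc hTcov
  rw [hs2] at hB
  have hE := hEB0 F.1 r w d s₀ P.rr P.wn h1 f s
  have hcov : (univ : Finset (Fin n → Bool)) ⊆ ERC F.1 r w f s ∪
      BRC (ERC F.1 r w f s) (f (s - 1)) (-(g (s - 1) y)) := by
    intro x _
    rw [mem_union]
    by_cases hx : x ∈ ERC F.1 r w f s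
    · exact Or.inl hx
    · refine Or.inr ?_
      unfold BRC
      rw [mem_filter]
      refine ⟨mem_univ _, hx, ?_⟩
      have := hRy.1 x
      linarith
  have hN : 2 ^ n ≤ s * tau0 n w d s₀ + s₀ * 2 ^ (n - k) := by
    have h3 := card_le_card hcov
    rw [card_univ, hcardN] at h3
    exact h3.trans ((card_union_le _ _).trans (Nat.add_le_add hE hB))
  have hN' : (2 : ℝ) ^ n ≤ s * (tau0 n w d s₀ : ℝ) + ((s₀ * 2 ^ (n - k) : ℕ) : ℝ) := by
    have : (((2 ^ n : ℕ)) : ℝ) ≤ ((s * tau0 n w d s₀ + s₀ * 2 ^ (n - k) : ℕ) : ℝ) := by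
      exact_mod_cast hN
    rw [Nat.cast_add, Nat.cast_mul s] at this
    simpa using this
  have hT4 : 4 * (s * (tau0 n w d s₀ : ℝ)) ≤ s * 2 ^ ((1 - γ) * n) := by
    calc 4 * (s * (tau0 n w d s₀ : ℝ)) = s * (4 * (tau0 n w d s₀ : ℝ)) := by ring
      _ ≤ s * 2 ^ ((1 - γ) * n) := mul_le_mul_of_nonneg_left P.tau4 hs0
  have hC4 : 4 * ((s₀ * 2 ^ (n - k) : ℕ) : ℝ) < 2 ^ n := by
    have : ((4 * (s₀ * 2 ^ (n - k)) : ℕ) : ℝ) < ((2 ^ n : ℕ) : ℝ) := by
      exact_mod_cast P.cov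
    rw [Nat.cast_mul 4] at this
    simpa using this
  have hpos : (0 : ℝ) < 2 ^ n := by positivity
  linarith

end Pool.Agent.H49.BO
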